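import Pool.Agent.K1H79.TW.Grp

/-!
Chains of subgroups with indices 2 and 3 (piece GRP of the project TW).
-/

set_option autoImplicit false

namespace Pool.Agent.K1H46.TW

open Subgroup
open scoped Pointwise

/-- a proper subgroup which contains the commutator subgroup is contained in a subgroup of prime index -/
theorem exists_prime {K : Type*} [Group K] [Finite K] (D : Subgroup K) (hD : D ≠ ⊤)
    (hc : commutator K ≤ D) : ∃ L : Subgroup K, D ≤ L ∧ L.index.Prime := by
  have hn : D.Normal := Normal.of_commutator_le _ hc
  obtain h | ⟨L, hL, hDL⟩ := eq_top_or_exists_le_coatom D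
  · exact absurd h hD
  · have hLn : L.Normal := Normal.of_commutator_le _ (hc.trans hDL)
    refine ⟨L, hDL, ?_⟩
    let A := Abelianization K
    let L' : Subgroup A := L.map Abelianization.of
    have hsurj : Function.Surjective (Abelianization.of : K →* A) := QuotientGroup.mk_surjective
    have hcom : L'.comap Abelianization.of = L := by
      rw [comap_map_eq, Abelianization.ker_of, sup_eq_left]
      exact hc.trans hDL
    have hcoat : ∀ N : Subgroup A, L' ≤ N → N ≠ L' → N = ⊤ := by
      intro N hN hne
      have h1 : L ≤ N.comap Abelianization.of := by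
        rw [← hcom]; exact comap_mono hN
      have h2 : N.comap Abelianization.of ≠ L := by
        intro h3
        apply hne
        have := map_comap_eq_self_of_surjective hsurj N
        rw [h3] at this
        exact this.symm
      have h3 := hL.2 _ (lt_of_le_of_ne h1 (Ne.symm h2))
      have := map_comap_eq_self_of_surjective hsurj N
      rw [h3, ← MonoidHom.range_eq_map, MonoidHom.range_eq_top.2 hsurj] at this
      exact this.symm
    have hidx : L.index = L'.index := by
      rw [← hcom]
      exact index_comap_of_surjective _ hsurj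
    rw [hidx]
    have hL'ne : L' ≠ ⊤ := by
      intro h
      apply hL.1
      rw [← hcom, h, comap_top]
    have : Nontrivial (A ⧸ L') := QuotientGroup.nontrivial_iff.2 hL'ne
    have : IsSimpleGroup (A ⧸ L') := by
      constructor
      intro N _
      by_cases h : N.comap (QuotientGroup.mk' L') = L'
      · left
        have := map_comap_eq_self_of_surjective (QuotientGroup.mk'_surjective L') N
        rw [h] at this
        rw [← this]
        rw [Subgroup.map_eq_bot_iff, QuotientGroup.ker_mk']
      · right
        have h1 := hcoat _ (by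
          intro x hx
          rw [mem_comap]
          have : QuotientGroup.mk' L' x = 1 := (QuotientGroup.eq_one_iff x).2 hx
          rw [this]
          exact N.one_mem) h
        have := map_comap_eq_self_of_surjective (QuotientGroup.mk'_surjective L') N
        rw [h1, ← MonoidHom.range_eq_map, MonoidHom.range_eq_top.2 (QuotientGroup.mk'_surjective L')]
          at this
        exact this.symm
    have := IsSimpleGroup.prime_card (α := A ⧸ L')
    exact this

/-- the heart: a subgroup of prime index above a subgroup of order at most two -/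
theorem exists_M {G : Type*} [Group G] [Finite G] [Group.IsSolvable G] (H : Subgroup G)
    (h2 : Nat.card H ≤ 2) (hne : H ≠ ⊤) : ∃ M : Subgroup G, H ≤ M ∧ M.index.Prime := by
  by_cases h1 : H ⊔ commutator G = ⊤
  swap
  · obtain ⟨L, hL, hp⟩ := exists_prime (H ⊔ commutator G) h1 le_sup_right
    exact ⟨L, le_sup_left.trans hL, hp⟩
  have : Nontrivial G := by
    by_contra hcon
    rw [not_nontrivial_iff_subsingleton] at hcon
    apply hne
    exact Subsingleton.elim _ _
  have hK : commutator G ≠ ⊤ := (Group.IsSolvable.commutator_lt_top_of_nontrivial G).ne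
  have hHK : ¬ H ≤ commutator G := by
    intro h
    rw [sup_eq_right.2 h] at h1
    exact hK h1
  -- the element h
  have hcard : Nat.card H = 2 := by
    have : 0 < Nat.card H := Nat.card_pos
    have h3 : Nat.card H ≠ 1 := by
      intro h
      rw [Subgroup.card_eq_one] at h
      apply hHK
      rw [h]
      exact bot_le
    omega
  obtain ⟨h, hhH, hhK⟩ : ∃ h ∈ H, h ∉ commutator G := by
    by_contra hcon
    push Not at hcon
    exact hHK hcon
  have hh1 : h ≠ 1 := by
    rintro rfl
    exact hhK (one_mem _)
  have hHe : ∀ x ∈ H, x = 1 ∨ x = h := by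
    intro x hx
    rw [Nat.card_eq_two_iff' (⟨h, hhH⟩ : H)] at hcard
    obtain ⟨y, _, hy2⟩ := hcard
    by_cases hxh : x = h
    · exact Or.inr hxh
    · left
      have e1 := hy2 ⟨x, hx⟩ (fun e => hxh (congrArg Subtype.val e))
      have e2 := hy2 (1 : H) (fun e => hh1 (congrArg Subtype.val e).symm)
      rw [← e2] at e1
      exact congrArg Subtype.val e1
  have hhh : h * h = 1 := by
    rcases hHe (h * h) (mul_mem hhH hhH) with e | e
    · exact e
    · exact absurd (mul_eq_left.1 e) hh1
  -- conjugation by `h`
  obtain ⟨K, hKd⟩ : ∃ K : Subgroup G, K = commutator G := ⟨_, rfl⟩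
  have hKn : K.Normal := by rw [hKd]; infer_instance
  rw [← hKd] at h1 hK hHK hhK
  have hKt : Nontrivial K := by
    rw [nontrivial_iff_ne_bot]
    intro hb
    rw [hb, sup_bot_eq] at h1
    exact hne h1
  let c : K →* K := (MulAut.conjNormal h : MulAut K).toMonoidHom
  have hc : ∀ x : K, ((c x : K) : G) = h * x * h⁻¹ := fun x => rfl
  have hcc : ∀ x : K, c (c x) = x := by
    intro x
    apply Subtype.ext
    rw [hc, hc]
    have e : h⁻¹ = h := inv_eq_of_mul_eq_one_right hhh
    rw [e]
    calc h * (h * x * h) * h = (h * h) * x * (h * h) := by group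
      _ = x := by rw [hhh, one_mul, mul_one]
  -- a subgroup of prime index in `K` which is stable under conjugation by `h`
  obtain ⟨L, hKL, hLp, hLc⟩ : ∃ L : Subgroup K, commutator K ≤ L ∧ L.index.Prime ∧
      ∀ x ∈ L, c x ∈ L := by
    let D : Subgroup K := commutator K ⊔ closure (Set.range (fun x : K => x * c x))
    by_cases hD : D = ⊤
    · obtain ⟨L, hL, hp⟩ := exists_prime (commutator K)
        (Group.IsSolvable.commutator_lt_top_of_nontrivial K).ne le_rfl
      refine ⟨L, hL, hp, ?_⟩
      let φ : K →* Abelianization K := Abelianization.of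
      let ψ : K →* Abelianization K := Abelianization.of.comp c
      have hψ : ∀ x, ψ x = φ (c x) := fun x => rfl
      have hle : D ≤ φ.eqLocus ψ := by
        refine sup_le ?_ ?_
        · intro x hx
          have e1 : φ x = 1 := MonoidHom.mem_ker.1 (Abelianization.commutator_subset_ker φ hx)
          have e2 : ψ x = 1 := MonoidHom.mem_ker.1 (Abelianization.commutator_subset_ker ψ hx)
          show φ x = ψ x
          rw [e1, e2]
        · rw [closure_le]
          rintro _ ⟨x, rfl⟩
          show φ (x * c x) = ψ (x * c x)
          rw [hψ, map_mul, map_mul, map_mul, hcc, mul_comm]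
      rw [hD] at hle
      intro x hx
      have e1 : φ x = φ (c x) := hle (mem_top x)
      have e2 : x⁻¹ * c x ∈ commutator K := by
        rw [← Abelianization.ker_of K, MonoidHom.mem_ker]
        show φ (x⁻¹ * c x) = 1
        rw [map_mul, map_inv, ← e1, inv_mul_cancel]
      have e3 := L.mul_mem hx (hL e2)
      rwa [mul_inv_cancel_left] at e3
    · obtain ⟨L, hL, hp⟩ := exists_prime D hD le_sup_left
      refine ⟨L, le_sup_left.trans hL, hp, ?_⟩
      intro x hx
      have e1 : x * c x ∈ L := hL (mem_sup_right (subset_closure ⟨x, rfl⟩))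
      have e2 := L.mul_mem (L.inv_mem hx) e1
      rwa [inv_mul_cancel_left] at e2
  have hLn : L.Normal := Normal.of_commutator_le _ hKL
  let L' : Subgroup G := L.map K.subtype
  have hL'K : L' ≤ K := map_subtype_le L
  have hmemL' : ∀ x : K, (x : G) ∈ L' ↔ x ∈ L := by
    intro x
    constructor
    · rintro ⟨y, hy, he⟩
      have : y = x := Subtype.ext he
      rw [← this]; exact hy
    · intro hx
      exact ⟨x, hx, rfl⟩
  have hL'n : L'.Normal := by
    rw [← normalizer_eq_top_iff, eq_top_iff, ← h1, sup_le_iff]
    have hnorm : ∀ g : G, (∀ y ∈ L', g * y * g⁻¹ ∈ L') → g ∈ normalizer (L' : Set G) := by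
      intro g hg
      rw [mem_normalizer_iff]
      intro y
      refine ⟨hg y, ?_⟩
      -- finiteness
      have hinj : Function.Injective (fun y : L' => (⟨g * y * g⁻¹, hg y y.2⟩ : L')) := by
        intro a b hab
        have := congrArg Subtype.val hab
        apply Subtype.ext
        exact mul_left_cancel (mul_right_cancel this)
      have hsur := Finite.surjective_of_injective hinj
      intro hy
      obtain ⟨z, hz⟩ := hsur ⟨_, hy⟩
      have := congrArg Subtype.val hz
      have : (z : G) = y := mul_left_cancel (mul_right_cancel this)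
      rw [← this]
      exact z.2
    constructor
    · intro g hg
      apply hnorm
      rintro _ ⟨y, hy, rfl⟩
      rcases hHe g hg with rfl | rfl
      · have : (1 : G) * (K.subtype y) * 1⁻¹ = (y : G) := by simp
        rw [this]
        exact (hmemL' y).2 hy
      · exact (hmemL' (c y)).2 (hLc y hy)
    · intro g hg
      apply hnorm
      rintro _ ⟨y, hy, rfl⟩
      exact (hmemL' (⟨g, hg⟩ * y * ⟨g, hg⟩⁻¹)).2 (hLn.conj_mem y hy ⟨g, hg⟩)
  refine ⟨H ⊔ L', le_sup_left, ?_⟩
  have hinf : K ⊓ (H ⊔ L') = L' := by
    apply le_antisymm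
    · rintro x ⟨hxK, hx⟩
      have hx' : x ∈ (H : Set G) * (L' : Set G) := by
        rw [← mul_normal H L']; exact hx
      obtain ⟨a, ha, b, hb, rfl⟩ := hx'
      rcases hHe a ha with rfl | rfl
      · simpa using hb
      · exfalso
        apply hhK
        have : a * b * b⁻¹ ∈ K := mul_mem hxK (K.inv_mem (hL'K hb))
        rwa [mul_inv_cancel_right] at this
    · exact le_inf hL'K le_sup_right
  have hsup : (H ⊔ L') ⊔ K = ⊤ := by
    rw [sup_assoc, sup_eq_right.2 hL'K, h1]
  have e1 : L'.relIndex (H ⊔ L') = K.index := by
    have e0 : K.relIndex ((H ⊔ L') ⊔ K) = K.relIndex (H ⊔ L') := relIndex_sup_right _ _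
    rw [hsup, relIndex_top_right] at e0
    rw [e0]
    have := inf_relIndex_right K (H ⊔ L')
    rw [hinf] at this
    exact this
  have e2 : L'.relIndex (H ⊔ L') * (H ⊔ L').index = L'.index := relIndex_mul_index le_sup_right
  have e3 : L'.relIndex K * K.index = L'.index := relIndex_mul_index hL'K
  have e4 : L'.relIndex K = L.index := by
    unfold relIndex
    congr 1
    ext x
    rw [mem_subgroupOf, hmemL']
  rw [e1] at e2
  rw [e4] at e3
  have e5 : K.index * (H ⊔ L').index = K.index * L.index := by
    rw [e2, ← e3, mul_comm]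
  have e6 : 0 < K.index := Nat.pos_of_ne_zero FiniteIndex.index_ne_zero
  rw [Nat.eq_of_mul_eq_mul_left e6 e5]
  exact hLp

theorem t_GRP : Pool.Agent.K1H79.TW.S_GRP := by
  intro G _ _ _ a b hG H hH
  have key : ∀ (N : ℕ) (K : Subgroup G), Nat.card K ≤ N → H ≤ K →
      ∃ (j : ℕ) (S : ℕ → Subgroup G), S 0 = K ∧ S j = H ∧
      ∀ i < j, S (i + 1) ≤ S i ∧ (Nat.card (S i) = 2 * Nat.card (S (i + 1)) ∨
        Nat.card (S i) = 3 * Nat.card (S (i + 1))) := by
    intro N
    induction N with
    | zero =>
      intro K hK _
      have : 0 < Nat.card K := Nat.card_pos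
      omega
    | succ N ih =>
      intro K hK hHK
      by_cases hKH : K = H
      · exact ⟨0, fun _ => K, rfl, hKH, fun i hi => absurd hi (Nat.not_lt_zero i)⟩
      have hne : H.subgroupOf K ≠ ⊤ := by
        intro h
        rw [subgroupOf_eq_top] at h
        exact hKH (le_antisymm h hHK)
      have hc : Nat.card (H.subgroupOf K) ≤ 2 := by
        rw [Nat.card_congr (subgroupOfEquivOfLe hHK).toEquiv]
        exact hH
      obtain ⟨M, hM, hp⟩ := exists_M (H.subgroupOf K) hc hne
      have hcM : Nat.card (M.map K.subtype) = Nat.card M :=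
        Nat.card_congr (M.equivMapOfInjective K.subtype K.subtype_injective).toEquiv.symm
      have hcK : Nat.card M * M.index = Nat.card K := card_mul_index M
      have hHM : H ≤ M.map K.subtype := by
        intro x hx
        exact ⟨⟨x, hHK hx⟩, hM (mem_subgroupOf.2 hx), rfl⟩
      have hdvd : M.index ∣ 2 ^ a * 3 ^ b := by
        rw [← hG]
        exact (Dvd.intro_left _ hcK).trans (card_subgroup_dvd_card K)
      have h23 : M.index = 2 ∨ M.index = 3 := by
        rcases (Nat.Prime.dvd_mul hp).1 hdvd with h | h
        · exact Or.inl ((Nat.prime_dvd_prime_iff_eq hp Nat.prime_two).1 (hp.dvd_of_dvd_pow h))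
        · exact Or.inr ((Nat.prime_dvd_prime_iff_eq hp Nat.prime_three).1 (hp.dvd_of_dvd_pow h))
      have hMpos : 0 < Nat.card M := Nat.card_pos
      obtain ⟨j, S, h0, hj, hS⟩ := ih (M.map K.subtype) (by
        rw [hcM]
        rcases h23 with h | h <;> rw [h] at hcK <;> omega) hHM
      refine ⟨j + 1, fun i => Nat.casesOn i K S, rfl, hj, ?_⟩
      intro i hi
      rcases i with _ | i
      · refine ⟨?_, ?_⟩
        · show S 0 ≤ K
          rw [h0]
          exact map_subtype_le M
        · show Nat.card K = 2 * Nat.card (S 0) ∨ Nat.card K = 3 * Nat.card (S 0)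
          rw [h0, hcM]
          rcases h23 with h | h <;> rw [h] at hcK <;> omega
      · exact hS i (by omega)
  exact key (Nat.card (⊤ : Subgroup G)) ⊤ le_rfl le_top

end Pool.Agent.K1H46.TW
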